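import Pool.Agent.Y133.Half.PerDefs

/-!
# Varieties with a diagonal period matrix: definitions
-/

open CategoryTheory AlgebraicGeometry

universe u v

namespace Pool.Agent.X297.GP

open Pool.Agent.H914 Pool.Agent.H914.VarClass Pool.Agent.H914.VarClass.Obj
  Pool.Agent.H914.WeilCohomology Pool.Agent.Y133.Per

/-- The number `2 π i` as a unit. -/
noncomputable def tpi : ℂˣ := Units.mk0 twoPiI Complex.two_pi_I_ne_zero

/-- The multiplicative group of the field `F`, as a subgroup of the multiplicative group of the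
complex numbers (written additively). -/
def unitsOf (F : Subfield ℂ) : Submodule ℤ (Additive ℂˣ) :=
  AddSubgroup.toIntSubmodule
    { carrier := {z | (z.toMul : ℂ) ∈ F}
      add_mem' := fun ha hb => F.mul_mem ha hb
      zero_mem' := F.one_mem
      neg_mem' := fun {a} ha => by
        change ((a.toMul⁻¹ : ℂˣ) : ℂ) ∈ F
        rw [Units.val_inv_eq_inv_val]
        exact F.inv_mem ha }

/-- The class of a nonzero complex number modulo the multiplicative group of `F`. -/
def classOf (F : Subfield ℂ) (z : ℂˣ) : Additive ℂˣ ⧸ unitsOf F :=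
  (unitsOf F).mkQ (Additive.ofMul z)

/-- The rank of the group generated by the classes of the elements of `S` modulo the multiplicative
group of `F`. -/
noncomputable def rankOver (F : Subfield ℂ) (S : Set ℂˣ) : ℕ :=
  Module.finrank ℤ (Submodule.span ℤ (classOf F '' S))

/-- The sequence `t n * (n + 1) ^ (r / 2) / b ^ (n + 1)`. -/
noncomputable def scaled (b r : ℕ) (t : ℕ → ℕ) (n : ℕ) : ℝ :=
  ((n + 1 : ℕ) : ℝ) ^ ((r : ℝ) / 2) * t n / (b : ℝ) ^ (n + 1)

variable {k : Type u} [Field k] {𝒱 : VarClass k} {ops : CycleOps 𝒱}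
  {W : WeilCohomology.{u, v} ops} [Algebra W.K ℂ] {F : Subfield ℂ}

/-- The class `c` has degree `i`, and `ω c` lies in the de Rham cohomology. -/
def HasPeriod (D : DeRham W F) (X : 𝒱.Obj) (i : ℕ) (ω : ℂˣ) (c : W.H X) : Prop :=
  c ∈ W.gr X i ∧ tm (ω : ℂ) c ∈ D.dR X

/-- The period matrix of `X` is diagonal in suitable bases: the Betti cohomology with coefficients
in `W.K` is spanned by homogeneous classes which become elements of the de Rham cohomology after
multiplication by a number. -/
def IsDiagonal (D : DeRham W F) (X : 𝒱.Obj) : Prop :=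
  Submodule.span W.K {c | ∃ i ω, HasPeriod D X i ω c} = ⊤

/-- The numbers `ω ^ 2 / (2 π i) ^ i` for the periods `ω` of degree `i`. -/
def normPeriods (D : DeRham W F) (X : 𝒱.Obj) : Set ℂˣ :=
  {z | ∃ i ω, ∃ c ≠ 0, HasPeriod D X i ω c ∧ z = ω ^ 2 / tpi ^ i}

/-- The rank of the group generated by the numbers `ω ^ 2 / (2 π i) ^ i` modulo `Fˣ`. -/
noncomputable def periodRank (D : DeRham W F) (X : 𝒱.Obj) : ℕ := rankOver F (normPeriods D X)

end Pool.Agent.X297.GP
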