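import Pool.Agent.X297.GP.Defs
import Pool.Agent.Y133.Half.Per
import Pool.Agent.X297.GR.Lat
import Pool.Agent.X297.GR.Count
import Pool.Agent.Y129.Pow
import Pool.Agent.W397.MF.PAIR

/-!
# The growth of the number of de Rham-Betti classes
-/

open CategoryTheory AlgebraicGeometry Filter Topology

open scoped ENNReal TensorProduct

universe u v

namespace Pool.Agent.X297.GP

open Module
open Pool.Agent.H914 Pool.Agent.H914.VarClass Pool.Agent.H914.VarClass.Obj
  Pool.Agent.H914.WeilCohomology Pool.Agent.H281R3.HT Pool.Agent.Y133.Per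
open Pool.Agent.Y129 (pw pj word exists_word_basis word_succ)
open Pool.Agent.Y133.Half (cycRank dimOf)

section Lin

variable {F : Subfield ℂ} {V : Type*} [AddCommGroup V] [Module ℂ V] [FiniteDimensional ℂ V]

/-- The coordinates of the elements of an `F`-form. -/
lemma coord_mem (U : Submodule F V) (B : V →ₗ[ℂ] V →ₗ[ℂ] ℂ) (hB : ∀ v, (∀ w, B v w = 0) → v = 0)
    (hDB : ∀ v ∈ U, ∀ w ∈ U, B v w ∈ F) {s : Type*} [Fintype s] (e : Basis s ℂ V)
    (heU : ∀ i, e i ∈ U) {v : V} (hv : v ∈ U) (i : s) : e.repr v i ∈ F := by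
  classical
  let R : Matrix s s F := fun i j => ⟨B (e i) (e j), hDB _ (heU i) _ (heU j)⟩
  have hdet : R.det ≠ 0 := by
    intro h0
    have h1 : (R.map (algebraMap F ℂ)).det = 0 := by
      rw [← RingHom.mapMatrix_apply, ← RingHom.map_det, h0, map_zero]
    obtain ⟨x, hx, hx0⟩ := Matrix.exists_vecMul_eq_zero_iff.2 h1
    apply hx
    have h2 : ∑ i, x i • e i = 0 := by
      apply hB
      intro w
      have h3 : ∀ j, B (∑ i, x i • e i) (e j) = 0 := by
        intro j
        have h4 := congrFun hx0 j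
        rw [Matrix.vecMul, dotProduct] at h4
        rw [map_sum, LinearMap.sum_apply]
        rw [Pi.zero_apply] at h4
        rw [← h4]
        apply Finset.sum_congr rfl
        intro i _
        rw [map_smul, LinearMap.smul_apply, smul_eq_mul]
        rfl
      have h5 : B (∑ i, x i • e i) = 0 := e.ext fun j => by rw [h3, LinearMap.zero_apply]
      rw [h5, LinearMap.zero_apply]
    have h6 := Fintype.linearIndependent_iff.1 e.linearIndependent x h2
    funext i
    exact h6 i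
  let t : s → F := fun j => ⟨B v (e j), hDB _ hv _ (heU j)⟩
  let y : s → F := Matrix.vecMul t R⁻¹
  have hy : Matrix.vecMul y R = t := by
    rw [Matrix.vecMul_vecMul, Matrix.nonsing_inv_mul _ (isUnit_iff_ne_zero.2 hdet),
      Matrix.vecMul_one]
  have hv' : v = ∑ i, ((y i : F) : ℂ) • e i := by
    rw [← sub_eq_zero]
    apply hB
    intro w
    have h3 : ∀ j, B (v - ∑ i, ((y i : F) : ℂ) • e i) (e j) = 0 := by
      intro j
      have h4 := congrArg (fun z : F => (z : ℂ)) (congrFun hy j)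
      rw [Matrix.vecMul, dotProduct] at h4
      rw [map_sub, LinearMap.sub_apply, map_sum, LinearMap.sum_apply, sub_eq_zero]
      have h5 : ((t j : F) : ℂ) = B v (e j) := rfl
      rw [← h5, ← h4]
      push_cast
      apply Finset.sum_congr rfl
      intro i _
      rw [map_smul, LinearMap.smul_apply, smul_eq_mul]
    have h5 : B (v - ∑ i, ((y i : F) : ℂ) • e i) = 0 :=
      e.ext fun j => by rw [h3, LinearMap.zero_apply]
    rw [h5, LinearMap.zero_apply]
  rw [hv', e.repr_sum_self]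
  exact (y i).2

end Lin

variable {k : Type u} [Field k] {𝒱 : VarClass k} {ops : CycleOps 𝒱}
  {W : WeilCohomology.{u, v} ops} [Algebra W.K ℂ] {F : Subfield ℂ} {X Y Z : 𝒱.Obj}
  {D : DeRham W F}

lemma tpi_val : (tpi : ℂ) = twoPiI := rfl

/-- The coordinates of a de Rham class in a basis with periods. -/
lemma coord {ι : Type} [Fintype ι] (e : Basis ι W.K (W.H Z)) (ω : ι → ℂˣ)
    (he : ∀ i, tm (ω i : ℂ) (e i) ∈ D.dR Z) {z : ℂ} {c : W.H Z} (hc : tm z c ∈ D.dR Z) (i : ι) :
    (ω i : ℂ)⁻¹ * (z * algebraMap W.K ℂ (e.repr c i)) ∈ F := by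
  have h0 : twoPiI ^ Z.dim ≠ 0 := pow_ne_zero _ twoPiI_ne
  let B : Base W.K (W.H Z) →ₗ[ℂ] Base W.K (W.H Z) →ₗ[ℂ] ℂ :=
    (twoPiI ^ Z.dim)⁻¹ • ((LinearMap.mul ℂ (Base W.K (W.H Z))).compr₂ (baseTr (W.tr Z)))
  have hBe : ∀ v w, B v w = (twoPiI ^ Z.dim)⁻¹ * baseTr (W.tr Z) (v * w) := fun v w => rfl
  have key : ∀ v w r, baseTr (W.tr Z) (v * w) = twoPiI ^ Z.dim * r → B v w = r := by
    intro v w r h
    rw [hBe, h, ← mul_assoc, inv_mul_cancel₀ h0, one_mul]
  let e' : Basis ι ℂ (Base W.K (W.H Z)) := (e.baseChange ℂ).unitsSMul ω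
  have he' : ∀ i, e' i = tm (ω i : ℂ) (e i) := by
    intro i
    have h1 : ((e.baseChange ℂ).unitsSMul ω) i =
        (ω i : ℂˣ) • ((e.baseChange ℂ) i : ℂ ⊗[W.K] W.H Z) := Basis.unitsSMul_apply _
    rw [Basis.baseChange_apply] at h1
    have h2 : ((ω i : ℂˣ) • ((1 : ℂ) ⊗ₜ[W.K] e i) : ℂ ⊗[W.K] W.H Z) = tm ((ω i : ℂ) * 1) (e i) := by
      rw [← smul_tm]
      rfl
    rw [mul_one] at h2
    exact h1.trans h2
  have h1 := coord_mem (dRSub D Z) B ?_ ?_ e' (fun i => by rw [he']; exact he i) hc i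
  · have h2 : e'.repr (tm z c) i = (ω i : ℂ)⁻¹ * (z * algebraMap W.K ℂ (e.repr c i)) := by
      have h3 : e'.repr (tm z c) i = (ω i)⁻¹ • (e.baseChange ℂ).repr (tm z c) i :=
        Basis.repr_unitsSMul _ _ _ _
      have h4 : (e.baseChange ℂ).repr (z ⊗ₜ[W.K] c) i = e.repr c i • z :=
        Basis.baseChange_repr_tmul _ _ _ _ _
      have h5 : (e.baseChange ℂ).repr (tm z c) i = (e.baseChange ℂ).repr (z ⊗ₜ[W.K] c) i := rfl
      rw [h3, h5, h4, Algebra.smul_def, mul_comm z, Units.smul_def, smul_eq_mul,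
        Units.val_inv_eq_inv_val]
    rw [← h2]
    exact h1
  · intro v hv
    apply baseTr_nondeg _ (Pool.Agent.Y133.Half.exists_dual_class W)
    intro b
    have h1 := hv b
    rw [hBe] at h1
    exact (mul_eq_zero.1 h1).resolve_left (inv_ne_zero h0)
  · intro v hv w hw
    obtain ⟨r, hr, h⟩ := (D.form Z).tr _ ((D.form Z).mul v hv w hw)
    rw [key v w r h]
    exact hr

/-- The ratio of two periods. -/
lemma ratio_mem {ι : Type} [Fintype ι] (e : Basis ι W.K (W.H Z)) (ω : ι → ℂˣ)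
    (he : ∀ i, tm (ω i : ℂ) (e i) ∈ D.dR Z) {z : ℂˣ} {c : W.H Z} (hc : tm (z : ℂ) c ∈ D.dR Z)
    {i : ι} (hi : e.repr c i ≠ 0) : (((ω i)⁻¹ * z : ℂˣ) : ℂ) ∈ F := by
  have h1 := coord e ω he hc i
  have h2 : algebraMap W.K ℂ (e.repr c i) ∈ F := (D.form Z).scal _
  have h3 : algebraMap W.K ℂ (e.repr c i) ≠ 0 := (map_ne_zero _).2 hi
  rw [Units.val_mul, Units.val_inv_eq_inv_val]
  have h4 : (ω i : ℂ)⁻¹ * z = ((ω i : ℂ)⁻¹ * (z * algebraMap W.K ℂ (e.repr c i))) *
      (algebraMap W.K ℂ (e.repr c i))⁻¹ := by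
    field_simp
  rw [h4]
  exact F.mul_mem h1 (F.inv_mem h2)

section Classes

lemma classOf_eq {a b : ℂˣ} : classOf F a = classOf F b ↔ ((a⁻¹ * b : ℂˣ) : ℂ) ∈ F := by
  rw [classOf, classOf, Submodule.mkQ_apply, Submodule.mkQ_apply, eq_comm, Submodule.Quotient.eq]
  change ((b * a⁻¹ : ℂˣ) : ℂ) ∈ F ↔ _
  rw [mul_comm]

lemma classOf_eq_zero {a : ℂˣ} : classOf F a = 0 ↔ (a : ℂ) ∈ F := by
  rw [classOf, Submodule.mkQ_apply, Submodule.Quotient.mk_eq_zero]
  rfl

lemma classOf_mul (a b : ℂˣ) : classOf F (a * b) = classOf F a + classOf F b := by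
  rw [classOf, ofMul_mul, map_add, classOf, classOf]

lemma classOf_pow (a : ℂˣ) (n : ℕ) : classOf F (a ^ n) = n • classOf F a := by
  rw [classOf, ofMul_pow, map_nsmul, classOf]

lemma classOf_prod {κ : Type*} (s : Finset κ) (a : κ → ℂˣ) :
    classOf F (∏ i ∈ s, a i) = ∑ i ∈ s, classOf F (a i) := by
  simp only [classOf]
  rw [ofMul_prod, map_sum]

/-- An algebraically closed field contains all roots of its elements. -/
lemma root_mem [IsAlgClosed F] {z : ℂ} {n : ℕ} (hn : 0 < n) (h : z ^ n ∈ F) : z ∈ F := by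
  have h1 : IsIntegral F z := by
    refine IsIntegral.of_pow hn ?_
    exact isIntegral_algebraMap (x := (⟨z ^ n, h⟩ : F))
  have h2 := minpoly.mem_range_of_degree_eq_one F z
    (IsAlgClosed.degree_eq_one_of_irreducible F (minpoly.irreducible h1))
  obtain ⟨y, hy⟩ := h2
  rw [← hy]
  exact y.2

end Classes

/-- A basis of homogeneous classes with periods. -/
structure PB (D : DeRham W F) (X : 𝒱.Obj) (b : ℕ) where
  v : Basis (Fin b) W.K (W.H X)
  dg : Fin b → ℕ
  om : Fin b → ℂˣ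
  per : ∀ i, HasPeriod D X (dg i) (om i) (v i)

lemma exists_PB (h : IsDiagonal D X) : Nonempty (PB D X (finrank W.K (W.H X))) := by
  set S : Set (W.H X) := {c | ∃ i ω, HasPeriod D X i ω c} with hS
  have htop' : Submodule.span W.K S = ⊤ := h
  obtain ⟨f, hf, hf2, hf3⟩ := Submodule.exists_fun_fin_finrank_span_eq W.K S
  have htop : Submodule.span W.K (Set.range f) = ⊤ := by rw [hf2]; exact htop'
  have hn : finrank W.K (Submodule.span W.K S) = finrank W.K (W.H X) := by
    rw [htop', finrank_top]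
  let v := (Basis.mk hf3 (by rw [htop])).reindex (finCongr hn)
  have hv : ∀ i, v i ∈ S := by
    intro i
    rw [Basis.reindex_apply, Basis.mk_apply]
    exact hf _
  choose d ω h1 using hv
  exact ⟨⟨v, d, ω, h1⟩⟩

lemma HasPeriod.map {i : ℕ} {ω : ℂˣ} (f : X ⟶ Y) {c : W.H Y} (h : HasPeriod D Y i ω c) :
    HasPeriod D X i ω (W.map f c) := by
  refine ⟨W.map_mem f h.1, ?_⟩
  have h1 := D.map f _ h.2
  rwa [baseMap_tm] at h1

lemma HasPeriod.mul {i j : ℕ} {ω η : ℂˣ} {c d : W.H Y} (h : HasPeriod D Y i ω c)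
    (h' : HasPeriod D Y j η d) : HasPeriod D Y (i + j) (ω * η) (c * d) := by
  refine ⟨W.mul_mem h.1 h'.1, ?_⟩
  have h1 := (D.form Y).mul _ h.2 _ h'.2
  rwa [tm_mul, ← Units.val_mul] at h1

/-- The product of the periods of two classes whose product is not zero. -/
lemma HasPeriod.dual {i j : ℕ} {ω η : ℂˣ} {c d : W.H Y} (h : HasPeriod D Y i ω c)
    (h' : HasPeriod D Y j η d) (hne : W.tr Y (c * d) ≠ 0) :
    i + j = 2 * Y.dim ∧ (((tpi ^ Y.dim)⁻¹ * (ω * η) : ℂˣ) : ℂ) ∈ F := by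
  have h1 := h.mul h'
  refine ⟨?_, ?_⟩
  · by_contra hdeg
    exact hne (W.tr_eq_zero h1.1 hdeg)
  · obtain ⟨r, hr, h2⟩ := (D.form Y).tr _ h1.2
    rw [baseTr_tm] at h2
    have h3 : algebraMap W.K ℂ (W.tr Y (c * d)) ∈ F := (D.form Y).scal _
    have h4 : algebraMap W.K ℂ (W.tr Y (c * d)) ≠ 0 := (map_ne_zero _).2 hne
    have h5 : (((tpi ^ Y.dim)⁻¹ * (ω * η) : ℂˣ) : ℂ) =
        r * (algebraMap W.K ℂ (W.tr Y (c * d)))⁻¹ := by
      rw [Units.val_mul, Units.val_inv_eq_inv_val, Units.val_pow_eq_pow_val, tpi_val,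
        eq_mul_inv_iff_mul_eq₀ h4, mul_assoc, h2, ← mul_assoc,
        inv_mul_cancel₀ (pow_ne_zero _ twoPiI_ne), one_mul]
    rw [h5]
    exact F.mul_mem hr (F.inv_mem h3)

namespace PB

variable {b : ℕ} (B : PB D X b)

lemma word_per (n : ℕ) (x : Fin (n + 1) → Fin b) :
    HasPeriod D (pw X n) (∑ i, B.dg (x i)) (∏ i, B.om (x i)) (word B.v n x) := by
  induction n with
  | zero =>
    rw [word, List.ofFn_succ, List.ofFn_zero, List.prod_cons, List.prod_nil, mul_one,
      Fin.sum_univ_one, Fin.prod_univ_one]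
    exact (B.per _).map _
  | succ n ih =>
    rw [word_succ, Fin.sum_univ_succ, Fin.prod_univ_succ]
    exact ((B.per _).map _).mul ((ih _).map _)

/-- The words which are de Rham-Betti classes up to a factor. -/
def Good {n : ℕ} (x : Fin n → Fin b) : Prop :=
  ∃ j, ∑ i, B.dg (x i) = 2 * j ∧ (((∏ i, B.om (x i))⁻¹ * tpi ^ j : ℂˣ) : ℂ) ∈ F

end PB

/-- The space spanned by the de Rham-Betti classes. -/
noncomputable def T (D : DeRham W F) (X : 𝒱.Obj) : Submodule W.K (W.H X) :=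
  Submodule.span W.K {c | ∃ j, IsDRB D X j c}

namespace PB

variable {b : ℕ} (B : PB D X b)

lemma word_T {n : ℕ} {x : Fin (n + 1) → Fin b} (hx : B.Good x) :
    ∃ j, IsDRB D (pw X n) j (word B.v n x) := by
  obtain ⟨j, hj, hm⟩ := hx
  have h1 := B.word_per n x
  refine ⟨j, ?_, ?_⟩
  · rw [← hj]
    exact h1.1
  · have h2 := (D.form (pw X n)).smul _ hm _ h1.2
    rw [smul_tm, ← Units.val_mul, mul_right_comm, inv_mul_cancel, one_mul] at h2
    rw [twist, ← tpi_val, ← Units.val_pow_eq_pow_val]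
    exact h2

lemma T_eq (n : ℕ) {e : Basis (Fin (n + 1) → Fin b) W.K (W.H (pw X n))}
    (he : ∀ x, e x = word B.v n x) :
    T D (pw X n) = Submodule.span W.K (Set.range fun x : {x // B.Good x} => e x.1) := by
  classical
  apply le_antisymm
  · rw [T, Submodule.span_le]
    rintro c ⟨j, hc1, hc2⟩
    change c ∈ Submodule.span W.K (Set.range fun x : {x // B.Good x} => e x.1)
    rw [← e.sum_repr c]
    refine Submodule.sum_mem _ fun x _ => ?_
    by_cases hx : e.repr c x = 0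
    · rw [hx, zero_smul]
      exact Submodule.zero_mem _
    refine Submodule.smul_mem _ _ (Submodule.subset_span ⟨⟨x, j, ?_, ?_⟩, rfl⟩)
    · by_contra hne
      apply hx
      have h1 : c = ∑ y, if ∑ i, B.dg (y i) = 2 * j then e.repr c y • e y else 0 := by
        conv_lhs => rw [← proj_same (W.isInternal (pw X n)) hc1, ← e.sum_repr c]
        rw [map_sum]
        refine Finset.sum_congr rfl fun y _ => ?_
        rw [map_smul]
        have h2 : e y ∈ W.gr (pw X n) (∑ i, B.dg (y i)) := by rw [he]; exact (B.word_per n y).1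
        by_cases hy : ∑ i, B.dg (y i) = 2 * j
        · rw [if_pos hy]
          rw [hy] at h2
          rw [proj_same _ h2]
        · rw [if_neg hy, proj_ne _ h2 hy, smul_zero]
      have h3 := congrArg (fun z => e.repr z x) h1
      simp only [map_sum, Finsupp.finsetSum_apply] at h3
      rw [h3, Finset.sum_eq_zero]
      intro y _
      by_cases hy : ∑ i, B.dg (y i) = 2 * j
      · rw [if_pos hy, map_smul, Finsupp.smul_apply, e.repr_self, Finsupp.single_eq_of_ne,
          smul_zero]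
        rintro rfl
        exact hne hy
      · rw [if_neg hy, map_zero, Finsupp.zero_apply]
    · refine ratio_mem (D := D) e (fun y => ∏ i, B.om (y i)) (fun y => ?_) (z := tpi ^ j) (c := c)
        ?_ hx
      · rw [he]
        exact (B.word_per n y).2
      · rw [Units.val_pow_eq_pow_val, tpi_val]
        exact hc2
  · rw [Submodule.span_le]
    rintro _ ⟨⟨x, hx⟩, rfl⟩
    obtain ⟨j, hj⟩ := B.word_T hx
    change e x ∈ T D (pw X n)
    rw [he]
    exact Submodule.subset_span ⟨j, hj⟩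

open Classical in
lemma finrank_T (n : ℕ) : finrank W.K (T D (pw X n)) =
    Fintype.card {x : Fin (n + 1) → Fin b // B.Good x} := by
  obtain ⟨e, he⟩ := exists_word_basis B.v n
  rw [B.T_eq n he]
  exact finrank_span_eq_card (e.linearIndependent.comp _ Subtype.val_injective)

/-- The normalised periods. -/
noncomputable def f (i : Fin b) : Additive ℂˣ ⧸ unitsOf F :=
  classOf F (B.om i ^ 2 / tpi ^ B.dg i)

lemma range_f : Set.range B.f = classOf F '' normPeriods D X := by
  classical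
  ext a
  constructor
  · rintro ⟨i, rfl⟩
    exact ⟨_, ⟨B.dg i, B.om i, B.v i, B.v.ne_zero i, B.per i, rfl⟩, rfl⟩
  · rintro ⟨_, ⟨d, ω, x, hx0, hx, rfl⟩, rfl⟩
    obtain ⟨i, hi⟩ : ∃ i, B.v.repr x i ≠ 0 ∧ B.dg i = d := by
      by_contra hcon
      push Not at hcon
      apply hx0
      rw [← proj_same (W.isInternal X) hx.1]
      conv_lhs => rw [← B.v.sum_repr x]
      rw [map_sum]
      refine Finset.sum_eq_zero fun i _ => ?_
      rw [map_smul]
      by_cases h : B.v.repr x i = 0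
      · rw [h, zero_smul]
      · rw [proj_ne _ (B.per i).1 (hcon i h), smul_zero]
    refine ⟨i, ?_⟩
    have h1 := ratio_mem B.v B.om (fun i => (B.per i).2) hx.2 hi.1
    rw [f, hi.2, classOf_eq]
    have h2 : ((B.om i ^ 2 / tpi ^ d)⁻¹ * (ω ^ 2 / tpi ^ d) : ℂˣ) = ((B.om i)⁻¹ * ω) ^ 2 := by
      rw [mul_pow, inv_pow, inv_div, div_mul_div_comm, mul_comm (tpi ^ d), mul_div_mul_right_eq_div,
        div_eq_mul_inv, mul_comm]
    rw [h2, Units.val_pow_eq_pow_val]
    exact F.pow_mem h1 2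

lemma rank_eq : finrank ℤ (Submodule.span ℤ (Set.range B.f)) = periodRank D X := by
  rw [B.range_f]
  rfl

/-- The sign. -/
def sgn (i : Fin b) : ℤˣ := (-1) ^ B.dg i

lemma prod_sgn {n : ℕ} (x : Fin n → Fin b) : ∏ i, B.sgn (x i) = (-1) ^ (∑ i, B.dg (x i)) := by
  simp only [sgn]
  rw [Finset.prod_pow_eq_pow_sum]

lemma sum_f {κ : Type} [Fintype κ] (x : κ → Fin b) : ∑ i, B.f (x i) =
    classOf F ((∏ i, B.om (x i)) ^ 2 / tpi ^ ∑ i, B.dg (x i)) := by
  simp only [f]
  rw [← classOf_prod, Finset.prod_div_distrib, Finset.prod_pow, Finset.prod_pow_eq_pow_sum]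

lemma good_iff [IsAlgClosed F] {n : ℕ} (x : Fin n → Fin b) :
    B.Good x ↔ (∃ m, 0 < m ∧ m • ∑ i, B.f (x i) = 0) ∧ ∏ i, B.sgn (x i) = 1 := by
  rw [prod_sgn, Good, B.sum_f]
  constructor
  · rintro ⟨j, hj, h⟩
    refine ⟨⟨1, one_pos, ?_⟩, by rw [hj, pow_mul, neg_one_sq, one_pow]⟩
    rw [one_smul, classOf_eq_zero, hj]
    have h1 : ((∏ i, B.om (x i)) ^ 2 / tpi ^ (2 * j) : ℂˣ) =
        (((∏ i, B.om (x i))⁻¹ * tpi ^ j) ^ 2)⁻¹ := by
      rw [mul_pow, inv_pow, mul_inv, inv_inv, ← pow_mul, mul_comm j 2, div_eq_mul_inv]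
    rw [h1, Units.val_inv_eq_inv_val, Units.val_pow_eq_pow_val]
    exact F.inv_mem (F.pow_mem h 2)
  · rintro ⟨⟨m, hm, h⟩, hs⟩
    have heven : Even (∑ i, B.dg (x i)) := by
      rcases Nat.even_or_odd (∑ i, B.dg (x i)) with h | h
      · exact h
      · rw [h.neg_one_pow] at hs
        exact absurd hs (by decide)
    obtain ⟨j, hj⟩ := heven
    refine ⟨j, by rw [hj]; ring, ?_⟩
    rw [← classOf_pow, classOf_eq_zero, hj] at h
    have h1 : (((∏ i, B.om (x i)) ^ 2 / tpi ^ (j + j)) ^ m : ℂˣ) =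
        (((∏ i, B.om (x i))⁻¹ * tpi ^ j) ^ (2 * m))⁻¹ := by
      rw [pow_mul, ← inv_pow, ← inv_pow, mul_inv, inv_inv, mul_pow, inv_pow, ← pow_mul,
        div_eq_mul_inv, show j * 2 = j + j by ring]
    rw [h1, Units.val_inv_eq_inv_val, Units.val_pow_eq_pow_val] at h
    have h2 := F.inv_mem h
    rw [inv_inv] at h2
    exact root_mem (Nat.mul_pos two_pos hm) h2

/-- The sum of all normalised periods is trivial. -/
lemma sum_all : ∃ m, 0 < m ∧ m • ∑ i, B.f i = 0 := by
  classical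
  -- the Gram matrix
  set M : Matrix (Fin b) (Fin b) W.K := fun i j => W.tr X (B.v i * B.v j) with hM
  have hdet : M.det ≠ 0 := by
    intro h0
    obtain ⟨c, hc, h⟩ := Matrix.exists_vecMul_eq_zero_iff.2 h0
    have h1 : ∑ i, c i • B.v i = 0 := by
      apply W.nondeg
      intro y
      have h2 : (W.tr X ∘ₗ LinearMap.mulLeft W.K (∑ i, c i • B.v i)) = 0 := by
        refine B.v.ext fun j => ?_
        rw [LinearMap.comp_apply, LinearMap.mulLeft_apply, LinearMap.zero_apply, Finset.sum_mul,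
          map_sum]
        have h3 := congrFun h j
        rw [Matrix.vecMul, dotProduct, Pi.zero_apply] at h3
        rw [← h3]
        refine Finset.sum_congr rfl fun i _ => ?_
        rw [smul_mul_assoc, map_smul, smul_eq_mul]
      exact congrArg (fun f => f y) h2
    apply hc
    funext i
    exact Fintype.linearIndependent_iff.1 B.v.linearIndependent c h1 i
  obtain ⟨σ, -, hσ⟩ : ∃ σ ∈ (Finset.univ : Finset (Equiv.Perm (Fin b))),
      Equiv.Perm.sign σ • ∏ i, M (σ i) i ≠ 0 := by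
    rw [Matrix.det_apply] at hdet
    exact Finset.exists_ne_zero_of_sum_ne_zero hdet
  have hσ' : ∀ i, W.tr X (B.v (σ i) * B.v i) ≠ 0 := by
    intro i hi
    apply hσ
    have h1 : ∏ j, M (σ j) j = 0 :=
      Finset.prod_eq_zero (f := fun j => M (σ j) j) (Finset.mem_univ i) hi
    rw [h1, smul_zero]
  refine ⟨2, two_pos, ?_⟩
  have h3 : ∑ i, (B.f (σ i) + B.f i) = 0 := by
    refine Finset.sum_eq_zero fun i _ => ?_
    obtain ⟨hdg, hps⟩ := (B.per (σ i)).dual (B.per i) (hσ' i)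
    rw [f, f, ← classOf_mul, classOf_eq_zero]
    have h4 : (B.om (σ i) ^ 2 / tpi ^ B.dg (σ i) * (B.om i ^ 2 / tpi ^ B.dg i) : ℂˣ) =
        ((tpi ^ X.dim)⁻¹ * (B.om (σ i) * B.om i)) ^ 2 := by
      rw [div_mul_div_comm, ← pow_add, hdg, mul_pow, inv_pow, ← pow_mul, mul_comm X.dim 2,
        mul_pow, div_eq_inv_mul]
    rw [h4, Units.val_pow_eq_pow_val]
    exact F.pow_mem hps 2
  rw [Finset.sum_add_distrib, Equiv.sum_comp σ B.f] at h3
  rw [two_smul]
  exact h3

include B in
/-- The trace pairing is not degenerate on the de Rham-Betti classes. -/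
lemma nondeg {n : ℕ} {x : W.H (pw X n)} (hx : x ∈ T D (pw X n))
    (h : ∀ y ∈ T D (pw X n), W.tr (pw X n) (x * y) = 0) : x = 0 := by
  classical
  obtain ⟨e, he⟩ := exists_word_basis B.v n
  apply W.nondeg
  intro c
  have key : (W.tr (pw X n) ∘ₗ LinearMap.mulLeft W.K x) = 0 := by
    refine e.ext fun w => ?_
    change W.tr (pw X n) (x * e w) = 0
    by_cases hw : B.Good w
    · apply h
      obtain ⟨j, hj⟩ := B.word_T hw
      rw [he]
      exact Submodule.subset_span ⟨j, hj⟩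
    · rw [B.T_eq n he] at hx
      clear h
      induction hx using Submodule.span_induction with
      | zero => rw [zero_mul, map_zero]
      | add x y _ _ hx hy => rw [add_mul, map_add, hx, hy, add_zero]
      | smul c x _ hx => rw [smul_mul_assoc, map_smul, hx, smul_zero]
      | mem x hx =>
        obtain ⟨⟨w', j, hj, hw'⟩, rfl⟩ := hx
        change W.tr (pw X n) (e w' * e w) = 0
        by_contra hne
        apply hw
        rw [he, he] at hne
        obtain ⟨h1, h2⟩ := (B.word_per n w').dual (B.word_per n w) hne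
        refine ⟨(pw X n).dim - j, by omega, ?_⟩
        have hle : j ≤ (pw X n).dim := by omega
        have h5 : ((∏ i, B.om (w i))⁻¹ * tpi ^ ((pw X n).dim - j) : ℂˣ) =
            (((∏ i, B.om (w' i))⁻¹ * tpi ^ j) *
              ((tpi ^ (pw X n).dim)⁻¹ * ((∏ i, B.om (w' i)) * (∏ i, B.om (w i)))))⁻¹ := by
          have h6 : tpi ^ (pw X n).dim = tpi ^ ((pw X n).dim - j) * tpi ^ j := by
            rw [← pow_add, Nat.sub_add_cancel hle]
          rw [h6]
          simp only [mul_inv, inv_inv]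
          rw [mul_comm (tpi ^ ((pw X n).dim - j)) (tpi ^ j)]
          generalize (∏ i, B.om (w' i)) = p
          generalize (∏ i, B.om (w i)) = q
          generalize tpi ^ j = s
          generalize tpi ^ ((pw X n).dim - j) = t
          calc q⁻¹ * t = (p * p⁻¹) * (s⁻¹ * s) * (q⁻¹ * t) := by
                rw [mul_inv_cancel, inv_mul_cancel, one_mul, one_mul]
            _ = _ := by
                simp only [mul_assoc, mul_comm, mul_left_comm]
        rw [h5, Units.val_inv_eq_inv_val, Units.val_mul]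
        exact F.inv_mem (F.mul_mem hw' h2)
  exact congrArg (fun f => f c) key

end PB

lemma one_mem_T : (1 : W.H Z) ∈ T D Z :=
  Pool.Agent.Y133.Half.ClassPred.alg_le (Q := drbPred D) Pool.Agent.W536.RR.one_mem_algSpan

/-- **The growth of the number of de Rham-Betti classes.** -/
theorem drb_growth [IsAlgClosed F] [Nontrivial (W.H X)] (h : IsDiagonal D X) :
    ∃ C : ℝ, 0 < C ∧ Tendsto (fun n : ℕ => Real.sqrt (n + 1 : ℕ) ^ periodRank D X *
      ((finrank W.K (T D (pw X n)) : ℝ) /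
        (finrank W.K (W.H X) : ℝ) ^ (n + 1))) atTop (𝓝 C) := by
  classical
  obtain ⟨B⟩ := exists_PB h
  obtain ⟨u, hu1, hu2⟩ := GR.exists_lattice B.f B.rank_eq
  have hgood : ∀ {n : ℕ} (x : Fin n → Fin (finrank W.K (W.H X))),
      B.Good x ↔ ∑ k, u (x k) = 0 ∧ ∏ k, B.sgn (x k) = 1 := by
    intro n x
    rw [B.good_iff, hu2]
  have hcount : ∀ n, finrank W.K (T D (pw X n)) = GR.evenWalks u B.sgn (n + 1) := by
    intro n
    rw [B.finrank_T, Fintype.card_subtype, GR.evenWalks]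
    congr 1
    ext x
    simp only [Finset.mem_filter, Finset.mem_univ, true_and]
    exact hgood x
  -- the zero step
  obtain ⟨i₀, h₀, hs₀⟩ : ∃ i, u i = 0 ∧ B.sgn i = 1 := by
    have h1 : 0 < finrank W.K (T D (pw X 0)) := by
      have : Nontrivial (T D (pw X 0)) := by
        refine ⟨⟨⟨(1 : W.H X), one_mem_T⟩, 0, fun h => ?_⟩⟩
        exact (one_ne_zero : (1 : W.H X) ≠ 0) (congrArg Subtype.val h)
      exact finrank_pos
    rw [hcount, GR.evenWalks, Finset.card_pos] at h1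
    obtain ⟨x, hx⟩ := h1
    simp only [Finset.mem_filter, Finset.mem_univ, true_and] at hx
    rw [Fin.sum_univ_one, Fin.prod_univ_one] at hx
    exact ⟨x 0, hx⟩
  have hmean : ∑ i, u i = 0 := (hu2 (Fin _) (id : Fin _ → Fin _)).2 B.sum_all
  obtain ⟨C, hC, hlim⟩ := GR.evenWalks_tendsto u B.sgn i₀ h₀ hs₀ hu1 hmean
  refine ⟨C, hC, ?_⟩
  have h1 := hlim.comp (tendsto_add_atTop_nat 1)
  refine h1.congr fun n => ?_
  simp only [Function.comp_apply, hcount, Fintype.card_fin]

lemma drbDim_eq (Z : 𝒱.Obj) : drbDim D Z = finrank W.K (T D Z) := rfl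

/-- **The growth of the numbers of de Rham-Betti classes and of cycles.** -/
theorem main [IsAlgClosed F] [Nontrivial (W.H X)] (h : IsDiagonal D X) {b r : ℕ}
    (hb : b = finrank W.K (W.H X)) (hr : r = periodRank D X) :
    ∃ (C : ℝ) (N : ℕ∞), 0 < C ∧ 1 ≤ N ∧
      Tendsto (scaled b r fun n => drbDim D (pw X n)) atTop (𝓝 C) ∧
      Tendsto (scaled b r fun n => cycRank ops (pw X n)) atTop
        (𝓝 (C * ((N : ℝ≥0∞)⁻¹).toReal)) ∧
      (N = 1 ↔ ∀ n j, GPC D (pw X n) j) := by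
  subst hb hr
  obtain ⟨C, hC, hlim⟩ := drb_growth h
  obtain ⟨N, hN1, hN, -, hN3, -⟩ := drb_index D X
  have hrpow : ∀ n : ℕ, Real.sqrt (n + 1 : ℕ) ^ periodRank D X =
      ((n + 1 : ℕ) : ℝ) ^ ((periodRank D X : ℝ) / 2) := by
    intro n
    rw [Real.sqrt_eq_rpow, ← Real.rpow_natCast, ← Real.rpow_mul (Nat.cast_nonneg _)]
    congr 1
    ring
  have hT0 : ∀ n, 0 < drbDim D (pw X n) := by
    intro n
    have hne : (1 : W.H (pw X n)) ≠ 0 := by
      have : Nontrivial (W.H (pw X n)) := by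
        apply nontrivial_of_finrank_pos (R := W.K)
        rw [Pool.Agent.Y129.finrank_pw]
        exact Nat.pow_pos finrank_pos
      exact one_ne_zero
    rw [drbDim_eq]
    have : Nontrivial (T D (pw X n)) := by
      refine ⟨⟨⟨1, one_mem_T⟩, 0, fun h => ?_⟩⟩
      exact hne (congrArg Subtype.val h)
    exact finrank_pos
  refine ⟨C, N, hC, hN1, ?_, ?_, ?_⟩
  · refine hlim.congr fun n => ?_
    rw [scaled, hrpow, mul_div_assoc, drbDim_eq]
  · -- the ratio
    have h1 : Tendsto (fun n => ((cycRank ops (pw X n) : ℝ≥0∞) / drbDim D (pw X n))) atTop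
        (𝓝 (N : ℝ≥0∞)⁻¹) := by
      refine hN.inv.congr fun n => ?_
      rw [ENNReal.inv_div]
      · exact Or.inl (ENNReal.natCast_ne_top _)
      · right
        exact Nat.cast_ne_zero.2 (hT0 n).ne'
    have hNtop : (N : ℝ≥0∞)⁻¹ ≠ ⊤ := by
      rw [Ne, ENNReal.inv_eq_top]
      intro h0
      have : N = 0 := by exact_mod_cast h0
      rw [this] at hN1
      exact absurd hN1 (by decide)
    have h2 := (ENNReal.tendsto_toReal hNtop).comp h1
    have h3 := hlim.mul h2
    refine h3.congr fun n => ?_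
    simp only [Function.comp_apply]
    rw [ENNReal.toReal_div, ENNReal.toReal_natCast, ENNReal.toReal_natCast, hrpow, scaled,
      ← drbDim_eq]
    have h4 : (drbDim D (pw X n) : ℝ) ≠ 0 := by
      exact_mod_cast (hT0 n).ne'
    field_simp
  · rw [hN3]
    refine forall_congr' fun n => ?_
    refine ⟨fun h1 => h1.1, fun h1 => ⟨h1, ?_⟩⟩
    -- the conjecture D
    obtain ⟨B⟩ := exists_PB h
    rw [Pool.Agent.Y133.Half.homEqNum_iff, eq_bot_iff]
    intro c hc
    have h2 : c ∈ algSpan W (pw X n) ∧ ∀ d ∈ algSpan W (pw X n), W.tr (pw X n) (c * d) = 0 := hc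
    have hTle : T D (pw X n) ≤ algSpan W (pw X n) := by
      rw [T, Submodule.span_le]
      rintro d ⟨j, hd⟩
      have h3 := h1 j d hd
      exact Pool.Agent.W397.MF.spanCycles_le_algSpan _ h3
    have hle : algSpan W (pw X n) ≤ T D (pw X n) :=
      Pool.Agent.Y133.Half.ClassPred.alg_le (Q := drbPred D)
    rw [Submodule.mem_bot]
    exact B.nondeg (hle h2.1) fun y hy => h2.2 y (hTle hy)

end Pool.Agent.X297.GP
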